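import Pool.Agent.BEL.StmtsD

/-!
# Squad BEL, row GDE: the dense G delta
-/

set_option autoImplicit false

open Filter Topology

noncomputable section

namespace Pool.Agent.BEL.H2

/-- GDE -/
theorem gde : GdeStmt := by
  intro K _ al c S hal hc hS hd
  have hU : ∀ n : ℕ, IsOpen {V : K | ∃ t : ℝ, (n : ℝ) < t ∧
      c / 2 * t ^ (-(2 / al)) < ‖S t V‖ ^ 2} := by
    intro n
    have e : {V : K | ∃ t : ℝ, (n : ℝ) < t ∧ c / 2 * t ^ (-(2 / al)) < ‖S t V‖ ^ 2} =
        ⋃ t : ℝ, {V : K | (n : ℝ) < t ∧ c / 2 * t ^ (-(2 / al)) < ‖S t V‖ ^ 2} := by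
      ext V
      simp
    rw [e]
    refine isOpen_iUnion fun t => ?_
    by_cases ht : (n : ℝ) < t
    · have ht0 : 0 ≤ t := le_trans (Nat.cast_nonneg n) ht.le
      have hcont : Continuous (fun V : K => S t V) := by
        rw [Metric.continuous_iff]
        intro V ε hε
        refine ⟨ε, hε, fun W hW => ?_⟩
        rw [dist_eq_norm] at hW ⊢
        exact lt_of_le_of_lt (hS t W V ht0) hW
      have e2 : {V : K | (n : ℝ) < t ∧ c / 2 * t ^ (-(2 / al)) < ‖S t V‖ ^ 2} =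
          {V : K | c / 2 * t ^ (-(2 / al)) < ‖S t V‖ ^ 2} := by
        ext V
        simp [ht]
      rw [e2]
      exact isOpen_lt continuous_const (hcont.norm.pow 2)
    · have e2 : {V : K | (n : ℝ) < t ∧ c / 2 * t ^ (-(2 / al)) < ‖S t V‖ ^ 2} = ∅ := by
        ext V
        simp [ht]
      rw [e2]
      exact isOpen_empty
  refine ⟨⋂ n : ℕ, {V : K | ∃ t : ℝ, (n : ℝ) < t ∧ c / 2 * t ^ (-(2 / al)) < ‖S t V‖ ^ 2},
    IsGδ.iInter_of_isOpen hU, ?_, ?_⟩
  · rw [Metric.dense_iff]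
    intro V0 ρ hρ
    obtain ⟨V, hV, hf⟩ := hd V0 ρ hρ
    refine ⟨V, ?_, ?_⟩
    · rw [Metric.mem_ball, dist_eq_norm]
      exact hV
    · rw [Set.mem_iInter]
      intro n
      obtain ⟨t, ht, h1⟩ := (hf.and_eventually (eventually_gt_atTop (n : ℝ))).exists
      have ht0 : 0 < t := lt_of_le_of_lt (Nat.cast_nonneg n) h1
      have h2 : 0 < t ^ (-(2 / al)) := Real.rpow_pos_of_pos ht0 _
      exact ⟨t, h1, by nlinarith [mul_pos hc h2]⟩
  · intro V hV
    rw [Filter.frequently_atTop]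
    intro b
    obtain ⟨n, hn⟩ := exists_nat_ge b
    rw [Set.mem_iInter] at hV
    obtain ⟨t, ht, h1⟩ := hV n
    exact ⟨t, hn.trans ht.le, h1.le⟩

end Pool.Agent.BEL.H2
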